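import Pool.Agent.KS7_39.I58.Core

/-!
# One set in the unit ball of `ℓ₁*`: no modulus between the two distances
-/

namespace Pool.Agent.Results.MP_1f58a3_an.OneSetInUnitBall

open Set Filter Topology
open Pool.Agent.KS7_39.I58.R270.IenvBasic Pool.Agent.KS7_39.I58.R270.L1
open Pool.Agent.KS7_39.I58.Core
open scoped ENNReal

section defs

variable {V : Type*} [NormedAddCommGroup V] [NormedSpace ℝ V]

/-- The distance of `η` to the (I)-envelope of `A`. -/
noncomputable def d1 (A : Set (StrongDual ℝ V)) (η : StrongDual ℝ V) : EReal :=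
  ((Metric.infEDist η (Ienv A) : ℝ≥0∞) : EReal)

/-- `inf_k η(x_k) - sup_{ξ ∈ A} limsup_k ξ(x_k)` for a sequence `x`. -/
noncomputable def sepValue (A : Set (StrongDual ℝ V)) (η : StrongDual ℝ V) (x : ℕ → V) : EReal :=
  (⨅ k, ((η (x k) : ℝ) : EReal)) -
    ⨆ ξ ∈ A, limsup (fun k => ((ξ (x k) : ℝ) : EReal)) atTop

/-- The supremum of `sepValue A η x` over all sequences `x` in the closed unit ball. -/
noncomputable def d2 (A : Set (StrongDual ℝ V)) (η : StrongDual ℝ V) : EReal :=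
  ⨆ x ∈ {x : ℕ → V | ∀ k, ‖x k‖ ≤ 1}, sepValue A η x

lemma d2_le_of (A : Set (StrongDual ℝ V)) (η : StrongDual ℝ V) (s : ℝ)
    (h : ∀ r : ℝ, s < r → ∀ x : ℕ → V, (∀ k, ‖x k‖ ≤ 1) →
      ¬ ∀ ξ ∈ A, ∀ᶠ n in atTop, ξ (x n) ≤ η (x n) - r) : d2 A η ≤ (s : EReal) := by
  refine iSup₂_le fun x hx => ?_
  by_contra hlt
  push Not at hlt
  obtain ⟨r, hr1, hr2⟩ := EReal.lt_iff_exists_real_btwn.1 hlt
  refine h r (EReal.coe_lt_coe_iff.1 hr1) x hx fun ξ hξ => ?_
  set a : EReal := ⨅ k, ((η (x k) : ℝ) : EReal) with ha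
  set b : EReal := ⨆ ξ ∈ A, limsup (fun k => ((ξ (x k) : ℝ) : EReal)) atTop with hb
  have h1 : b < a - r := by
    unfold sepValue at hr2
    rw [← ha, ← hb] at hr2
    rw [EReal.lt_sub_iff_add_lt (Or.inl (EReal.coe_ne_bot r)) (Or.inl (EReal.coe_ne_top r))]
    have hane : a ≠ ⊤ := fun h => by
      have h3 : a ≤ ((η (x 0) : ℝ) : EReal) := iInf_le _ 0
      rw [h] at h3
      exact EReal.coe_ne_top _ (top_le_iff.1 h3)
    by_cases hbt : b = ⊤
    · rw [hbt, EReal.sub_top] at hr2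
      exact absurd hr2 not_lt_bot
    · by_cases hbb : b = ⊥
      · rw [hbb, EReal.bot_add]
        refine bot_lt_iff_ne_bot.2 fun h => ?_
        rw [h, EReal.bot_sub] at hr2
        exact absurd hr2 not_lt_bot
      · rw [add_comm]
        exact (EReal.lt_sub_iff_add_lt (Or.inl hbb) (Or.inl hbt)).1 hr2
  have h2 : limsup (fun k => ((ξ (x k) : ℝ) : EReal)) atTop < a - r :=
    lt_of_le_of_lt (le_iSup₂ (f := fun (ξ : StrongDual ℝ V) (_ : ξ ∈ A) =>
        limsup (fun k => ((ξ (x k) : ℝ) : EReal)) atTop) ξ hξ) h1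
  filter_upwards [eventually_lt_of_limsup_lt h2] with k hk
  have h3 : a ≤ ((η (x k) : ℝ) : EReal) := iInf_le _ k
  have h4 : ((ξ (x k) : ℝ) : EReal) < ((η (x k) : ℝ) : EReal) - (r : EReal) :=
    lt_of_lt_of_le hk (EReal.sub_le_sub h3 le_rfl)
  rw [← EReal.coe_sub, EReal.coe_lt_coe_iff] at h4
  exact h4.le

/-- The set `A` lies in the closed unit ball of the dual, and for every `ε > 0` there is `η` in the
closed unit ball of the dual with `d₁(η) = 2` and `d₂(η) ≤ ε`. -/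
def Extremal (A : Set (StrongDual ℝ V)) : Prop :=
  (∀ ξ ∈ A, ‖ξ‖ ≤ 1) ∧
    ∀ ε : ℝ, 0 < ε → ∃ η : StrongDual ℝ V, ‖η‖ ≤ 1 ∧ d1 A η = 2 ∧ d2 A η ≤ (ε : EReal)

end defs

/-- The coordinate of `ℓ₁` which belongs to the number `N` and the finite sequence `t`. -/
noncomputable def c (N : ℕ) (t : T) : ℕ := Denumerable.eqv (ℕ × T) (N, t)

lemma c_inj {N M : ℕ} {t u : T} (h : c N t = c M u) : N = M ∧ t = u := by
  have := (Denumerable.eqv (ℕ × T)).injective h
  exact ⟨congrArg Prod.fst this, congrArg Prod.snd this⟩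

lemma c_surj (i : ℕ) : ∃ N t, c N t = i :=
  ⟨((Denumerable.eqv (ℕ × T)).symm i).1, ((Denumerable.eqv (ℕ × T)).symm i).2,
    (Denumerable.eqv (ℕ × T)).apply_symm_apply i⟩

/-- The set of functionals. -/
def B : Set (StrongDual ℝ (lp (fun _ : ℕ => ℝ) 1)) :=
  {ξ | ∃ α : ℕ → T → ℕ, ∀ N t, ξ (e (c N t)) =
    2 * (((hitSet (N + 1) (α N) t).card : ℝ) / ((N + 1 : ℕ) : ℝ)) - 1}

lemma val2_le (N : ℕ) (α : T → ℕ) (t : T) :
    |2 * (((hitSet (N + 1) α t).card : ℝ) / ((N + 1 : ℕ) : ℝ)) - 1| ≤ 1 := by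
  have h1 := (abs_le.1 (val_le (N + 1) (Nat.succ_pos N) α t)).2
  have h2 : (0 : ℝ) ≤ ((hitSet (N + 1) α t).card : ℝ) / ((N + 1 : ℕ) : ℝ) := by positivity
  rw [abs_le]
  constructor <;> linarith

/-- The restriction to a block of coordinates. -/
noncomputable def pr (N : ℕ) : X ℕ →L[ℝ] X T :=
  LinearMap.mkContinuous
    { toFun := fun x => ⟨fun t => x (c N t), memℓp_gen (by
        have h := (summable_norm x).comp_injective (i := c N) fun t u h => (c_inj h).2
        simp only [ENNReal.toReal_one, Real.rpow_one, Real.norm_eq_abs]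
        exact h)⟩
      map_add' := fun x y => by ext t; rfl
      map_smul' := fun r x => by ext t; rfl } 1 (fun x => by
        rw [one_mul, norm_eq, norm_eq]
        exact tsum_comp_le_tsum_of_inj (summable_norm x) (fun i => abs_nonneg _)
          (i := c N) fun t u h => (c_inj h).2)

lemma pr_apply (N : ℕ) (x : X ℕ) (t : T) : pr N x t = x (c N t) := rfl

lemma norm_pr (N : ℕ) (x : X ℕ) : ‖pr N x‖ ≤ ‖x‖ := by
  have := (pr N).le_of_opNorm_le (LinearMap.mkContinuous_norm_le _ zero_le_one _) x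
  rwa [one_mul] at this

lemma e_self {ι : Type*} (i : ι) : (e i : X ι) i = 1 := by
  unfold e
  simp

lemma e_ne {ι : Type*} {i j : ι} (h : j ≠ i) : (e i : X ι) j = 0 := by
  classical
  unfold e
  simp [lp.single_apply, Pi.single_eq_of_ne h]

lemma pr_same (N : ℕ) (t : T) : pr N (e (c N t)) = e t := by
  ext u
  rw [pr_apply]
  by_cases h : u = t
  · rw [h, e_self, e_self]
  · rw [e_ne h, e_ne fun h' => h (c_inj h').2]

lemma pr_ne {N M : ℕ} (hNM : M ≠ N) (t : T) : pr N (e (c M t)) = 0 := by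
  ext u
  rw [pr_apply, e_ne fun h' => hNM (c_inj h').1.symm]
  rfl

/-- The values of the functional `eta N`. -/
noncomputable def bb (N : ℕ) (i : ℕ) : ℝ :=
  if ((Denumerable.eqv (ℕ × T)).symm i).1 = N then -1 else
    2 * (((hitSet (((Denumerable.eqv (ℕ × T)).symm i).1 + 1) (fun _ => 0)
      ((Denumerable.eqv (ℕ × T)).symm i).2).card : ℝ) /
        ((((Denumerable.eqv (ℕ × T)).symm i).1 + 1 : ℕ) : ℝ)) - 1

lemma bb_le (N i : ℕ) : |bb N i| ≤ 1 := by
  unfold bb
  split_ifs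
  · simp
  · exact val2_le _ _ _

/-- The functionals at distance two from the envelope. -/
noncomputable def eta (N : ℕ) : StrongDual ℝ (X ℕ) := fn (bb N) 1 (bb_le N)

lemma eta_same (N : ℕ) (t : T) : eta N (e (c N t)) = -1 := by
  rw [eta, fn_e]
  simp [bb, c]

lemma eta_ne {N M : ℕ} (hNM : M ≠ N) (t : T) : eta N (e (c M t)) =
    2 * (((hitSet (M + 1) (fun _ => 0) t).card : ℝ) / ((M + 1 : ℕ) : ℝ)) - 1 := by
  rw [eta, fn_e]
  simp [bb, c, hNM]

lemma lift_mem (N : ℕ) {φ : StrongDual ℝ (X T)} (hφ : φ ∈ A (N + 1)) :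
    (2 : ℝ) • (φ ∘L pr N) + eta N ∈ B := by
  obtain ⟨α, hα⟩ := hφ
  refine ⟨fun M => if M = N then α else fun _ => 0, fun M t => ?_⟩
  rw [add_apply, smul_apply, ContinuousLinearMap.comp_apply, smul_eq_mul]
  by_cases h : M = N
  · subst h
    simp only [if_true]
    rw [pr_same, eta_same, hα, ← sub_eq_add_neg]
  · simp only [if_neg h]
    rw [pr_ne h, map_zero, mul_zero, zero_add, eta_ne h]

lemma d2_eta (N : ℕ) : d2 B (eta N) ≤ ((2 * (1 / ((N + 1 : ℕ) : ℝ)) : ℝ) : EReal) := by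
  refine d2_le_of _ _ _ fun r hr x hx hcon => ?_
  obtain ⟨F, hF, hF2⟩ := exists_cover (A (N + 1)) 0 (r / 2) (fun n => pr N (x n))
    (fun n => (norm_pr N _).trans (hx n)) (fun φ hφ => by
      filter_upwards [hcon _ (lift_mem N hφ)] with n hn
      rw [add_apply, smul_apply, ContinuousLinearMap.comp_apply, smul_eq_mul] at hn
      simp only [RCLike.re_to_real, zero_apply]
      linarith)
  obtain ⟨L, hL⟩ := exists_nat_gt (1 / (r / 2 - 1 / ((N + 1 : ℕ) : ℝ)))
  have hpos : 0 < r / 2 - 1 / ((N + 1 : ℕ) : ℝ) := by linarith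
  have hLpos : 0 < (L : ℝ) := lt_trans (by positivity) hL
  obtain ⟨ζ, hζ1, hζ2⟩ := exists_small (N + 1) (Nat.succ_pos N) F hF L (by exact_mod_cast hLpos)
  have h3 := hF2 ζ hζ1
  rw [zero_sub, norm_neg] at h3
  have h4 : 1 / (L : ℝ) < r / 2 - 1 / ((N + 1 : ℕ) : ℝ) := by
    rw [div_lt_iff₀ hLpos]
    rw [div_lt_iff₀ hpos] at hL
    linarith
  linarith

lemma far' (N : ℕ) {η : StrongDual ℝ (X ℕ)} (hη : η ∈ Ienv B) : 2 ≤ ‖eta N - η‖ := by
  have hN' : (0 : ℝ) < ((N + 1 : ℕ) : ℝ) := by positivity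
  have hstep : ∀ t : T, t.length < N + 1 → ∀ ε : ℝ, 0 < ε →
      ∃ j, η (e (c N t)) + (2 * (1 / ((N + 1 : ℕ) : ℝ)) - ε) ≤ η (e (c N (t ++ [j]))) := by
    intro t ht ε hε
    by_contra hcon
    push Not at hcon
    refine Ienv_seq hη (ε / 2) (by positivity)
      (fun j => (1 / 2 : ℝ) • ((e (c N t) : X ℕ) - e (c N (t ++ [j])))) (fun j => ?_) ?_
    · rw [norm_smul]
      have h1 : ‖(e (c N t) : X ℕ) - e (c N (t ++ [j]))‖ ≤ 2 := by
        calc ‖(e (c N t) : X ℕ) - e (c N (t ++ [j]))‖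
            ≤ ‖(e (c N t) : X ℕ)‖ + ‖(e (c N (t ++ [j])) : X ℕ)‖ := norm_sub_le _ _
          _ = 2 := by rw [norm_e, norm_e]; norm_num
      have h2 : ‖(1 / 2 : ℝ)‖ = 1 / 2 := by norm_num
      rw [h2]
      linarith
    · rintro ξ ⟨α, hξ⟩
      filter_upwards [eventually_gt_atTop (α N t)] with j hj
      simp only [RCLike.re_to_real, map_smul, map_sub, smul_eq_mul]
      rw [hξ, hξ, hitSet_append (N + 1) (α N) t ht j hj]
      have h3 := hcon j
      have h4 : (((hitSet (N + 1) (α N) t).card + 1 : ℕ) : ℝ) / ((N + 1 : ℕ) : ℝ) =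
          ((hitSet (N + 1) (α N) t).card : ℝ) / ((N + 1 : ℕ) : ℝ) + 1 / ((N + 1 : ℕ) : ℝ) := by
        rw [← add_div]; norm_num
      rw [h4]
      linarith
  have hzero : -1 ≤ η (e (c N [])) := by
    by_contra hcon
    push Not at hcon
    refine Ienv_seq hη (-1 - η (e (c N []))) (by linarith) (fun _ => -(e (c N []) : X ℕ))
      (fun j => by rw [norm_neg, norm_e]) ?_
    rintro ξ ⟨α, hξ⟩
    refine Eventually.of_forall fun n => ?_
    simp only [RCLike.re_to_real, map_neg]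
    rw [hξ]
    simp only [hitSet, List.length_nil, Nat.zero_min, Finset.range_zero, Finset.filter_empty,
      Finset.card_empty, Nat.cast_zero, zero_div, mul_zero]
    linarith
  have hiter : ∀ ε : ℝ, 0 < ε → ∀ k : ℕ, k ≤ N + 1 → ∃ t : T, t.length = k ∧
      η (e (c N ([] : T))) + k * (2 * (1 / ((N + 1 : ℕ) : ℝ)) - ε) ≤ η (e (c N t)) := by
    intro ε hε k
    induction k with
    | zero => exact fun _ => ⟨[], rfl, by simp⟩
    | succ k ih =>
      intro hk
      obtain ⟨t, ht, h1⟩ := ih (Nat.le_of_succ_le hk)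
      obtain ⟨j, hj⟩ := hstep t (by omega) ε hε
      refine ⟨t ++ [j], by simp [ht], ?_⟩
      have h2 : ((k + 1 : ℕ) : ℝ) = k + 1 := by push_cast; ring
      rw [h2]
      linarith
  have hfin : ∀ ε : ℝ, 0 < ε → 2 - ((N + 1 : ℕ) : ℝ) * ε ≤ ‖eta N - η‖ := by
    intro ε hε
    obtain ⟨t, -, ht⟩ := hiter ε hε (N + 1) le_rfl
    have h1 := (abs_le.1 (abs_le_norm (eta N - η) (c N t))).1
    rw [sub_apply, eta_same] at h1
    have h3 : ((N + 1 : ℕ) : ℝ) * (2 * (1 / ((N + 1 : ℕ) : ℝ)) - ε) =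
        2 - ((N + 1 : ℕ) : ℝ) * ε := by
      field_simp
    rw [h3] at ht
    linarith
  refine le_of_forall_pos_le_add fun δ hδ => ?_
  have h1 := hfin (δ / ((N + 1 : ℕ) : ℝ)) (by positivity)
  have h2 : ((N + 1 : ℕ) : ℝ) * (δ / ((N + 1 : ℕ) : ℝ)) = δ := by
    field_simp
  rw [h2] at h1
  linarith

lemma d1_eta (N : ℕ) : d1 B (eta N) = 2 := by
  unfold d1
  have h2' : ENNReal.ofReal 2 = 2 := by simp
  have h : Metric.infEDist (eta N) (Ienv B) = 2 := by
    refine le_antisymm ?_ ?_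
    · let φ : StrongDual ℝ (X T) :=
        fn (fun t => ((hitSet (N + 1) (fun _ => 0) t).card : ℝ) / ((N + 1 : ℕ) : ℝ)) 1
          (val_le (N + 1) (Nat.succ_pos N) _)
      have hφ : φ ∈ A (N + 1) := ⟨_, fun t => fn_e _ _ _ t⟩
      refine (Metric.infEDist_le_edist_of_mem (subset_Ienv _ (lift_mem N hφ))).trans ?_
      rw [edist_dist, dist_eq_norm]
      refine (ENNReal.ofReal_le_ofReal (q := 2) ?_).trans_eq h2'
      rw [sub_add_cancel_right, norm_neg, norm_smul, Real.norm_eq_abs, abs_two]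
      refine (mul_le_mul_of_nonneg_left (ContinuousLinearMap.opNorm_le_bound _ zero_le_one
        fun x => ?_) zero_le_two).trans_eq (mul_one _)
      rw [ContinuousLinearMap.comp_apply, one_mul]
      refine (φ.le_of_opNorm_le (norm_le φ 1 zero_le_one fun t => ?_) _).trans ?_
      · rw [show φ (e t) = _ from fn_e _ _ _ t]
        exact val_le (N + 1) (Nat.succ_pos N) _ t
      · rw [one_mul]
        exact norm_pr N x
    · rw [Metric.le_infEDist]
      intro ζ hζ
      rw [edist_dist, dist_eq_norm]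
      exact h2'.symm.trans_le (ENNReal.ofReal_le_ofReal (far' N hζ))
  rw [h]
  rfl

/-- **No modulus.** There is one subset `A` of the closed unit ball of the dual of the separable
Banach space `ℓ₁` such that for every `ε > 0` there is `η` in the closed unit ball of the dual with
`d₁(η) = 2` (the largest possible value) and `d₂(η) ≤ ε`. -/
theorem result : ∃ A : Set (StrongDual ℝ (lp (fun _ : ℕ => ℝ) 1)), Extremal A := by
  refine ⟨B, ?_, fun ε hε => ?_⟩
  · rintro ξ ⟨α, hα⟩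
    refine norm_le ξ 1 zero_le_one fun i => ?_
    obtain ⟨N, t, rfl⟩ := c_surj i
    rw [hα]
    exact val2_le N _ t
  · obtain ⟨N, hN⟩ := exists_nat_one_div_lt (half_pos hε)
    refine ⟨eta N, norm_le _ 1 zero_le_one fun i => ?_, d1_eta N, (d2_eta N).trans ?_⟩
    · rw [eta, fn_e]
      exact bb_le N i
    · rw [EReal.coe_le_coe_iff]
      push_cast
      linarith

end Pool.Agent.Results.MP_1f58a3_an.OneSetInUnitBall
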